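import Mathlib
import Pool.Agent.H17.SHD

set_option autoImplicit false

namespace Pool.Agent.Results.MP_f0fa00_gt.NotDense
open Pool.Agent.H17.Div

theorem result : ∃ (X : Type) (_ : TopologicalSpace X) (D : Set X),
    CompactSpace X ∧ T2Space X ∧ SHD X ∧ Dense D ∧ ¬ SHD D :=
  ⟨K, inferInstance, D, inferInstance, inferInstance, shd_K, D_dense, not_shd_D⟩

end Pool.Agent.Results.MP_f0fa00_gt.NotDense
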